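import Pool.Agent.AEN.Stmts
import Pool.Agent.Helper62_LE.AVU

/-! Row SPA of squad AEN: spectral averaging (helper40). -/

set_option autoImplicit false

open MeasureTheory ProbabilityTheory Function Filter

open scoped ENNReal BigOperators InnerProductSpace Topology

noncomputable section

namespace Pool.Agent.AEN.H40

open Pool.Agent.Anderson Pool.Agent.Loc Pool.Agent.Helper54.Bal
open Pool.Agent.LE.CH.H62 (FF0 one_site lintegral_gl_le lintegral_poisson zne)

theorem spa : SpaStmt := by
  intro d σ E η V hσ hη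
  obtain ⟨a, b, hb, h⟩ := one_site V hη E
  have h1 : ∀ s : ℝ, ENNReal.ofReal (G (Function.update V 0 s) (zz η E) (del 0) 0).im =
      ENNReal.ofReal Real.pi *
        ENNReal.ofReal (1 / Real.pi * (b / ((s + a) ^ 2 + b ^ 2))) := by
    intro s
    rw [← h s, FF0, ← ENNReal.ofReal_mul Real.pi_pos.le, im_G_del (zne hη E), zz_im]
    congr 1
    field_simp
  rw [lintegral_congr h1, lintegral_const_mul _ (by fun_prop)]
  have h2 : ∫⁻ s, ENNReal.ofReal (1 / Real.pi * (b / ((s + a) ^ 2 + b ^ 2))) ∂(gl σ) ≤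
      ENNReal.ofReal (1 / |σ|) := by
    refine (lintegral_gl_le hσ (by fun_prop)).trans ?_
    rw [lintegral_poisson hb a, mul_one]
  calc ENNReal.ofReal Real.pi *
        ∫⁻ s, ENNReal.ofReal (1 / Real.pi * (b / ((s + a) ^ 2 + b ^ 2))) ∂(gl σ)
      ≤ ENNReal.ofReal Real.pi * ENNReal.ofReal (1 / |σ|) := by gcongr
    _ = ENNReal.ofReal (cs σ) := by
        rw [← ENNReal.ofReal_mul Real.pi_pos.le, cs]
        congr 1
        ring

end Pool.Agent.AEN.H40
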